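import Pool.Agent.Q140.Tor.Gauss

/-!
# Support points of an immersed torus
-/

open scoped RealInnerProductSpace

namespace Pool.Agent.Q140.Tor

/-- Second derivative test, one variable. -/
theorem second_deriv_nonpos {φ : ℝ → ℝ} (h1 : Differentiable ℝ φ)
    (hmax : IsLocalMax φ 0) : deriv (deriv φ) 0 ≤ 0 := by
  by_contra hcon
  push Not at hcon
  have hd : deriv φ 0 = 0 := hmax.deriv_eq_zero
  have hmin : IsLocalMin φ 0 := isLocalMin_of_deriv_deriv_pos hcon hd (h1 0).continuousAt
  have hc : φ =ᶠ[nhds 0] fun _ => φ 0 := by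
    filter_upwards [hmax, hmin] with x hx hy
    exact le_antisymm hx hy
  have h2 : deriv φ =ᶠ[nhds 0] deriv (fun _ : ℝ => φ 0) := hc.deriv
  have h3 : deriv (deriv φ) 0 = deriv (deriv (fun _ : ℝ => φ 0)) 0 := h2.deriv_eq
  simp at h3
  linarith

/-- Second derivative test in the plane, along a direction. -/
theorem DD_nonpos {h : ℝ × ℝ → ℝ} (hh : ContDiff ℝ 2 h) {p : ℝ × ℝ} (hmax : ∀ q, h q ≤ h p)
    (v : ℝ × ℝ) : D v (D v h) p ≤ 0 := by
  have hl : ∀ t : ℝ, HasDerivAt (fun t : ℝ => p + t • v) v t := by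
    intro t
    have := ((hasDerivAt_id t).smul_const v).const_add p
    simpa using this
  have h1 : ∀ (g : ℝ × ℝ → ℝ) (t : ℝ), DifferentiableAt ℝ g (p + t • v) →
      HasDerivAt (fun t : ℝ => g (p + t • v)) (D v g (p + t • v)) t := by
    intro g t hg
    exact hg.hasFDerivAt.comp_hasDerivAt t (hl t)
  have hd : Differentiable ℝ h := hh.differentiable (by norm_num)
  have hD : ContDiff ℝ 1 (D v h) := by
    simpa using contDiff_D (m := 1) (n := 2) (by simpa using hh) (by norm_num) v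
  have hdD : Differentiable ℝ (D v h) := hD.differentiable (by norm_num)
  have e1 : deriv (fun t : ℝ => h (p + t • v)) = fun t : ℝ => D v h (p + t • v) := by
    funext t
    exact (h1 h t (hd _)).deriv
  have e2 : deriv (deriv (fun t : ℝ => h (p + t • v))) 0 = D v (D v h) p := by
    rw [e1, (h1 (D v h) 0 (hdD _)).deriv]
    simp
  rw [← e2]
  apply second_deriv_nonpos
  · intro t
    exact (h1 h t (hd _)).differentiableAt
  · apply Filter.Eventually.of_forall
    intro t
    simpa using hmax (p + t • v)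

theorem D_eq_zero_of_max {h : ℝ × ℝ → ℝ} {p : ℝ × ℝ} (hmax : ∀ q, h q ≤ h p)
    (v : ℝ × ℝ) : D v h p = 0 := by
  have : IsLocalMax h p := Filter.Eventually.of_forall hmax
  simp [D, this.fderiv_eq_zero]

theorem D_lin {V : Type*} [NormedAddCommGroup V] [NormedSpace ℝ V] (g : ℝ × ℝ → V) (a b : ℝ)
    (p : ℝ × ℝ) : D (a, b) g p = a • D e1 g p + b • D e2 g p := by
  have : ((a, b) : ℝ × ℝ) = a • e1 + b • e2 := by simp [e1, e2]
  unfold D
  rw [this, map_add, map_smul, map_smul]

/-- A negative semidefinite quadratic form has nonnegative discriminant. -/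
theorem disc_nonneg {L M P : ℝ} (h : ∀ a b : ℝ, a * a * L + 2 * (a * b * M) + b * b * P ≤ 0) :
    0 ≤ L * P - M ^ 2 := by
  have h1 := h 1 0
  have h2 := h 0 1
  have h3 := h M (-L)
  have h4 := h P (-M)
  have h5 := h 1 1
  have h6 := h 1 (-1)
  by_contra hc
  push Not at hc
  have hL : L = 0 := by nlinarith
  have hP : P = 0 := by nlinarith
  subst hL hP
  nlinarith

variable {r r' r'' : ℝ → ℝ} {f : ℝ × ℝ → E3}

namespace Iso

variable (H : Iso r r' r'' f)

include H

theorem c_height (ν : E3) : ContDiff ℝ 3 (fun q => ⟪f q, ν⟫) :=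
  H.smooth.inner ℝ contDiff_const

theorem d0 (p : ℝ × ℝ) : DifferentiableAt ℝ f p := H.smooth.differentiable (by norm_num) p

theorem D_height (ν : E3) (v : ℝ × ℝ) : D v (fun q => ⟪f q, ν⟫) = fun p => ⟪D v f p, ν⟫ := by
  funext p
  rw [D_inner (H.d0 p) (differentiableAt_const ν), D_const]
  simp

theorem DD_height (ν : E3) (v w : ℝ × ℝ) (p : ℝ × ℝ) :
    D v (D w (fun q => ⟪f q, ν⟫)) p = ⟪D v (D w f) p, ν⟫ := by
  rw [H.D_height, D_inner (H.d1 w p) (differentiableAt_const ν), D_const]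
  simp

/-- A unit vector orthogonal to the tangent plane is `±` the unit normal. -/
theorem eq_or_neg {ν : E3} (hν : ⟪ν, ν⟫ = 1) {p : ℝ × ℝ} (h1 : ⟪D e1 f p, ν⟫ = 0)
    (h2 : ⟪D e2 f p, ν⟫ = 0) : ν = nor r f p ∨ ν = - nor r f p := by
  have k := H.parseval ν ν p
  have h1' : ⟪ν, D e1 f p⟫ = 0 := by rw [real_inner_comm]; exact h1
  have h2' : ⟪ν, D e2 f p⟫ = 0 := by rw [real_inner_comm]; exact h2
  rw [hν, h1', h2'] at k
  have k' : ⟪ν, nor r f p⟫ * ⟪ν, nor r f p⟫ = 1 := by rw [k]; ring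
  rcases mul_self_eq_one_iff.1 k' with h | h
  · left
    have : ⟪ν - nor r f p, ν - nor r f p⟫ = 0 := by
      rw [inner_sub_left, inner_sub_right, inner_sub_right, hν, H.nor_nor,
        real_inner_comm ν (nor r f p), h]
      ring
    exact sub_eq_zero.1 (inner_self_eq_zero.1 this)
  · right
    have : ⟪ν + nor r f p, ν + nor r f p⟫ = 0 := by
      rw [inner_add_left, inner_add_right, inner_add_right, hν, H.nor_nor,
        real_inner_comm ν (nor r f p), h]
      ring
    exact eq_neg_of_add_eq_zero_left (inner_self_eq_zero.1 this)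

/-- At a maximum of a height function the curvature is nonnegative. -/
theorem curv_of_max {ν : E3} (hν : ⟪ν, ν⟫ = 1) {p : ℝ × ℝ}
    (hmax : ∀ q, ⟪f q, ν⟫ ≤ ⟪f p, ν⟫) :
    (ν = nor r f p ∨ ν = - nor r f p) ∧ r'' p.1 ≤ 0 := by
  have hD : ∀ v, ⟪D v f p, ν⟫ = 0 := by
    intro v
    have := D_eq_zero_of_max (h := fun q => ⟪f q, ν⟫) hmax v
    rw [H.D_height] at this
    exact this
  have hor := H.eq_or_neg hν (hD e1) (hD e2)
  refine ⟨hor, ?_⟩
  have hDD : ∀ v, ⟪D v (D v f) p, ν⟫ ≤ 0 := by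
    intro v
    have := DD_nonpos (h := fun q => ⟪f q, ν⟫) ((H.c_height ν).of_le (by norm_num)) hmax v
    rwa [H.DD_height] at this
  have hq : ∀ a b : ℝ, a * a * ⟪D e1 (D e1 f) p, ν⟫ + 2 * (a * b * ⟪D e1 (D e2 f) p, ν⟫)
      + b * b * ⟪D e2 (D e2 f) p, ν⟫ ≤ 0 := by
    intro a b
    have h := hDD (a, b)
    have e0 : D (a, b) f = fun p => a • D e1 f p + b • D e2 f p := by
      funext p; exact D_lin f a b p
    have e : D (a, b) (D (a, b) f) p = (a * a) • D e1 (D e1 f) p + (2 * (a * b)) •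
        D e1 (D e2 f) p + (b * b) • D e2 (D e2 f) p := by
      rw [D_lin (D (a, b) f) a b p, e0]
      have k : ∀ v : ℝ × ℝ, D v (fun p => a • D e1 f p + b • D e2 f p) p =
          a • D v (D e1 f) p + b • D v (D e2 f) p := by
        intro v
        have hh : HasFDerivAt (fun p => a • D e1 f p + b • D e2 f p)
            (a • fderiv ℝ (D e1 f) p + b • fderiv ℝ (D e2 f) p) p :=
          ((H.d1 e1 p).hasFDerivAt.const_smul a).add ((H.d1 e2 p).hasFDerivAt.const_smul b)
        change fderiv ℝ (fun p => a • D e1 f p + b • D e2 f p) p v = _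
        rw [hh.fderiv]
        rfl
      rw [k, k, ← H.comm e1 e2]
      module
    rw [e] at h
    rw [inner_add_left, inner_add_left, real_inner_smul_left, real_inner_smul_left,
      real_inner_smul_left] at h
    linarith
  have hdisc := disc_nonneg hq
  have hg := H.gauss p
  have hp := H.pos p.1
  have key : ⟪D e1 (D e1 f) p, ν⟫ * ⟪D e2 (D e2 f) p, ν⟫ - ⟪D e1 (D e2 f) p, ν⟫ ^ 2 =
      - (r p.1 * r'' p.1) := by
    rw [← hg]
    unfold sff
    rcases hor with h | h
    · rw [h, real_inner_comm (nor r f p) (D e1 (D e1 f) p),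
        real_inner_comm (nor r f p) (D e1 (D e2 f) p),
        real_inner_comm (nor r f p) (D e2 (D e2 f) p)]
    · rw [h, inner_neg_right, inner_neg_right, inner_neg_right,
        real_inner_comm (nor r f p) (D e1 (D e1 f) p),
        real_inner_comm (nor r f p) (D e1 (D e2 f) p),
        real_inner_comm (nor r f p) (D e2 (D e2 f) p)]
      ring
  rw [key] at hdisc
  by_contra hc
  push Not at hc
  nlinarith [mul_pos hp hc]

/-- If a height function is constant then `r'' = 0`. -/
theorem rr_zero_of_const {ν : E3} (hν : ⟪ν, ν⟫ = 1) {p : ℝ × ℝ}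
    (hc : ∀ q, ⟪f q, ν⟫ = ⟪f p, ν⟫) (s : ℝ) : r'' s = 0 := by
  have hconst : (fun q => ⟪f q, ν⟫) = fun _ => ⟪f p, ν⟫ := funext hc
  have hD : ∀ v q, ⟪D v f q, ν⟫ = 0 := by
    intro v q
    have := congrFun (H.D_height ν v) q
    rw [← this, hconst, D_const]
  have hDD : ∀ v w q, ⟪D v (D w f) q, ν⟫ = 0 := by
    intro v w q
    have h2 : D w (fun q => ⟪f q, ν⟫) = fun _ => 0 := by
      rw [H.D_height]; funext q; exact hD w q
    rw [← H.DD_height, h2, D_const]
  have hor := H.eq_or_neg hν (hD e1 (s, 0)) (hD e2 (s, 0))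
  have hs : ∀ v w, sff r f v w (s, 0) = 0 := by
    intro v w
    have := hDD v w (s, 0)
    unfold sff
    rcases hor with h | h
    · rw [← h, real_inner_comm]; exact this
    · rw [h, inner_neg_right] at this
      rw [real_inner_comm]; linarith
  have hg := H.gauss (s, 0)
  rw [hs, hs, hs] at hg
  have hp := H.pos s
  have : r s * r'' s = 0 := by simpa using hg
  rcases mul_eq_zero.1 this with h | h
  · linarith
  · exact h

end Iso

end Pool.Agent.Q140.Tor
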