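import Mathlib

/-!
# Surfaces of the form `ds² + r(s)² dθ²` immersed in Euclidean three-space

Calculus of the second fundamental form for an isometric immersion `f` of the metric
`ds² + r(s)² dθ²`, written for maps of the plane.
-/

open scoped RealInnerProductSpace

namespace Pool.Agent.Q140.Tor

/-- Euclidean three-space. -/
abbrev E3 : Type := EuclideanSpace ℝ (Fin 3)

/-- Directional derivative of a map of the plane. -/
noncomputable def D {V : Type*} [NormedAddCommGroup V] [NormedSpace ℝ V]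
    (v : ℝ × ℝ) (g : ℝ × ℝ → V) (p : ℝ × ℝ) : V := fderiv ℝ g p v

section D

variable {V : Type*} [NormedAddCommGroup V] [NormedSpace ℝ V]

theorem contDiff_D {g : ℝ × ℝ → V} {m n : ℕ} (hg : ContDiff ℝ n g) (h : m + 1 ≤ n)
    (v : ℝ × ℝ) : ContDiff ℝ m (D v g) := by
  have h1 : ContDiff ℝ m (fderiv ℝ g) := hg.fderiv_right (by exact_mod_cast h)
  exact h1.clm_apply contDiff_const

theorem D_comm {g : ℝ × ℝ → V} (hg : ContDiff ℝ 2 g) (v w : ℝ × ℝ) (p : ℝ × ℝ) :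
    D v (D w g) p = D w (D v g) p := by
  have hd : DifferentiableAt ℝ (fderiv ℝ g) p :=
    (hg.fderiv_right (m := 1) (by norm_num)).differentiable (by norm_num) p
  have hs : IsSymmSndFDerivAt ℝ g p := by
    apply ContDiffAt.isSymmSndFDerivAt hg.contDiffAt
    simp
  have e : ∀ a b : ℝ × ℝ, D a (D b g) p = fderiv ℝ (fderiv ℝ g) p a b := by
    intro a b
    change fderiv ℝ (fun q => (fderiv ℝ g q) b) p a = _
    rw [fderiv_clm_apply hd (differentiableAt_const b)]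
    simp
  rw [e v w, e w v]
  exact hs v w

theorem D_inner {g h : ℝ × ℝ → E3} {p : ℝ × ℝ} (hg : DifferentiableAt ℝ g p)
    (hh : DifferentiableAt ℝ h p) (v : ℝ × ℝ) :
    D v (fun q => ⟪g q, h q⟫) p = ⟪g p, D v h p⟫ + ⟪D v g p, h p⟫ := by
  unfold D
  exact fderiv_inner_apply ℝ hg hh v

end D

section vec

/-- The determinant of three vectors. -/
def det3 (u v w : E3) : ℝ :=
  u 0 * (v 1 * w 2 - v 2 * w 1) - u 1 * (v 0 * w 2 - v 2 * w 0) + u 2 * (v 0 * w 1 - v 1 * w 0)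

/-- The cross product of two vectors. -/
noncomputable def cr (u v : E3) : E3 :=
  !₂[u 1 * v 2 - u 2 * v 1, u 2 * v 0 - u 0 * v 2, u 0 * v 1 - u 1 * v 0]

theorem inner3 (u v : E3) : ⟪u, v⟫ = u 0 * v 0 + u 1 * v 1 + u 2 * v 2 := by
  simp [PiLp.inner_apply, Fin.sum_univ_three, mul_comm]

@[simp] theorem cr_0 (u v : E3) : cr u v 0 = u 1 * v 2 - u 2 * v 1 := by simp [cr]

@[simp] theorem cr_1 (u v : E3) : cr u v 1 = u 2 * v 0 - u 0 * v 2 := by simp [cr]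

@[simp] theorem cr_2 (u v : E3) : cr u v 2 = u 0 * v 1 - u 1 * v 0 := by simp [cr]

theorem inner_cr_left (u v : E3) : ⟪cr u v, u⟫ = 0 := by
  simp only [inner3, cr_0, cr_1, cr_2]; ring

theorem inner_cr_right (u v : E3) : ⟪cr u v, v⟫ = 0 := by
  simp only [inner3, cr_0, cr_1, cr_2]; ring

theorem inner_cr_cr (u v : E3) : ⟪cr u v, cr u v⟫ = ⟪u, u⟫ * ⟪v, v⟫ - ⟪u, v⟫ ^ 2 := by
  simp only [inner3, cr_0, cr_1, cr_2]; ring

theorem det3_cr (u v : E3) : det3 u v (cr u v) = ⟪u, u⟫ * ⟪v, v⟫ - ⟪u, v⟫ ^ 2 := by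
  simp only [inner3, det3, cr_0, cr_1, cr_2]; ring

theorem det3_smul_right (a : ℝ) (u v w : E3) : det3 u v (a • w) = a * det3 u v w := by
  simp [det3]; ring

theorem det3_mul_det3 (u v w a b c : E3) :
    det3 u v w * det3 a b c =
      ⟪u, a⟫ * (⟪v, b⟫ * ⟪w, c⟫ - ⟪v, c⟫ * ⟪w, b⟫)
      - ⟪u, b⟫ * (⟪v, a⟫ * ⟪w, c⟫ - ⟪v, c⟫ * ⟪w, a⟫)
      + ⟪u, c⟫ * (⟪v, a⟫ * ⟪w, b⟫ - ⟪v, b⟫ * ⟪w, a⟫) := by
  simp only [inner3, det3]; ring

/-- Expansion of an inner product in terms of `a`, `b` and `a × b`. -/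
theorem inner_expand (u v a b : E3) :
    ⟪u, cr a b⟫ * ⟪v, cr a b⟫ =
      ⟪u, v⟫ * (⟪a, a⟫ * ⟪b, b⟫ - ⟪a, b⟫ * ⟪a, b⟫)
      - ⟪u, a⟫ * (⟪a, v⟫ * ⟪b, b⟫ - ⟪a, b⟫ * ⟪b, v⟫)
      + ⟪u, b⟫ * (⟪a, v⟫ * ⟪a, b⟫ - ⟪a, a⟫ * ⟪b, v⟫) := by
  simp only [inner3, cr_0, cr_1, cr_2]; ring

theorem contDiff_cr {X : Type*} [NormedAddCommGroup X] [NormedSpace ℝ X] {n : ℕ}
    {g h : X → E3} (hg : ContDiff ℝ n g) (hh : ContDiff ℝ n h) :
    ContDiff ℝ n (fun p => cr (g p) (h p)) := by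
  have hg' : ∀ i, ContDiff ℝ n (fun p => g p i) := contDiff_euclidean.1 hg
  have hh' : ∀ i, ContDiff ℝ n (fun p => h p i) := contDiff_euclidean.1 hh
  rw [contDiff_euclidean]
  intro i
  fin_cases i
  · simpa [cr] using ((hg' 1).mul (hh' 2)).sub ((hg' 2).mul (hh' 1))
  · simpa [cr] using ((hg' 2).mul (hh' 0)).sub ((hg' 0).mul (hh' 2))
  · simpa [cr] using ((hg' 0).mul (hh' 1)).sub ((hg' 1).mul (hh' 0))

end vec

end Pool.Agent.Q140.Tor
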