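import Pool.Agent.Q140.Tor.Support

/-!
# The area inequality for the Gauss map
-/

open scoped RealInnerProductSpace
open MeasureTheory Set

namespace Pool.Agent.Q140.Tor

/-- Double periodicity. -/
structure Per {V : Type*} (f : ℝ × ℝ → V) : Prop where
  p1 : ∀ s t, f (s + 2 * Real.pi, t) = f (s, t)
  p2 : ∀ s t, f (s, t + 2 * Real.pi) = f (s, t)

/-- Fundamental domain. -/
def Q : Set (ℝ × ℝ) := Ico 0 (2 * Real.pi) ×ˢ Ico 0 (2 * Real.pi)

theorem Per.rep {V : Type*} {f : ℝ × ℝ → V} (h : Per f) (q : ℝ × ℝ) : ∃ q' ∈ Q, f q' = f q := by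
  obtain ⟨s, t⟩ := q
  refine ⟨(toIcoMod Real.two_pi_pos 0 s, toIcoMod Real.two_pi_pos 0 t), ⟨?_, ?_⟩, ?_⟩
  · simpa using toIcoMod_mem_Ico Real.two_pi_pos 0 s
  · simpa using toIcoMod_mem_Ico Real.two_pi_pos 0 t
  · have h1 : ∀ t, Function.Periodic (fun s => f (s, t)) (2 * Real.pi) := fun t s => h.p1 s t
    have h2 : ∀ s, Function.Periodic (fun t => f (s, t)) (2 * Real.pi) := fun s t => h.p2 s t
    have k1 : f (toIcoMod Real.two_pi_pos 0 s, toIcoMod Real.two_pi_pos 0 t) =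
        f (s, toIcoMod Real.two_pi_pos 0 t) := by
      rw [toIcoMod]
      exact (h1 _).sub_zsmul_eq _
    have k2 : f (s, toIcoMod Real.two_pi_pos 0 t) = f (s, t) := by
      rw [toIcoMod]
      exact (h2 _).sub_zsmul_eq _
    rw [k1, k2]

variable {r r' r'' : ℝ → ℝ} {f : ℝ × ℝ → E3}

namespace Iso

variable (H : Iso r r' r'' f)

include H

theorem exists_support (hper : Per f) {ν : E3} (hν : ⟪ν, ν⟫ = 1) :
    ∃ p ∈ Q, (∀ q, ⟪f q, ν⟫ ≤ ⟪f p, ν⟫) ∧ (ν = nor r f p ∨ ν = - nor r f p) := by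
  have hcont : Continuous (fun q => ⟪f q, ν⟫) := (H.c_height ν).continuous
  have hK : IsCompact (Icc (0 : ℝ) (2 * Real.pi) ×ˢ Icc (0 : ℝ) (2 * Real.pi)) :=
    isCompact_Icc.prod isCompact_Icc
  have hne : (Icc (0 : ℝ) (2 * Real.pi) ×ˢ Icc (0 : ℝ) (2 * Real.pi)).Nonempty :=
    ⟨(0, 0), by simp [Real.pi_pos.le]⟩
  obtain ⟨p0, -, hp0⟩ := hK.exists_isMaxOn hne hcont.continuousOn
  obtain ⟨p, hpQ, hp⟩ := hper.rep p0
  have hmax : ∀ q, ⟪f q, ν⟫ ≤ ⟪f p, ν⟫ := by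
    intro q
    obtain ⟨q', hq', hqq⟩ := hper.rep q
    have : q' ∈ Icc (0 : ℝ) (2 * Real.pi) ×ˢ Icc (0 : ℝ) (2 * Real.pi) :=
      ⟨Ico_subset_Icc_self hq'.1, Ico_subset_Icc_self hq'.2⟩
    have := hp0 this
    rw [← hqq, hp]
    exact this
  exact ⟨p, hpQ, hmax, (H.curv_of_max hν hmax).1⟩

/-- The cone over the Gauss map. -/
noncomputable def Phi (r : ℝ → ℝ) (f : ℝ × ℝ → E3) (ε : ℝ) (y : Fin 3 → ℝ) : Fin 3 → ℝ :=
  fun i => ε * (y 0 * (nor r f (y 1, y 2)) i)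

/-- Its derivative. -/
noncomputable def Phi' (r : ℝ → ℝ) (f : ℝ × ℝ → E3) (ε : ℝ) (y : Fin 3 → ℝ) :
    (Fin 3 → ℝ) →L[ℝ] (Fin 3 → ℝ) :=
  ε • ((PiLp.continuousLinearEquiv 2 ℝ (fun _ : Fin 3 => ℝ)).toContinuousLinearMap.comp
    ((y 0) • ((fderiv ℝ (nor r f) (y 1, y 2)).comp
        ((ContinuousLinearMap.proj (R := ℝ) (φ := fun _ : Fin 3 => ℝ) 1).prod
          (ContinuousLinearMap.proj (R := ℝ) (φ := fun _ : Fin 3 => ℝ) 2)))
      + (ContinuousLinearMap.proj (R := ℝ) (φ := fun _ : Fin 3 => ℝ) 0).smulRight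
          (nor r f (y 1, y 2))))

theorem hasFDerivAt_Phi (ε : ℝ) (y : Fin 3 → ℝ) :
    HasFDerivAt (Phi r f ε) (Phi' r f ε y) y := by
  set P : (Fin 3 → ℝ) →L[ℝ] ℝ × ℝ :=
    (ContinuousLinearMap.proj (R := ℝ) (φ := fun _ : Fin 3 => ℝ) 1).prod
          (ContinuousLinearMap.proj (R := ℝ) (φ := fun _ : Fin 3 => ℝ) 2) with hP
  have h1 : HasFDerivAt (fun y : Fin 3 → ℝ => nor r f (P y))
      ((fderiv ℝ (nor r f) (P y)).comp P) y :=
    (H.d_nor (P y)).hasFDerivAt.comp y P.hasFDerivAt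
  have h0 : HasFDerivAt (fun y : Fin 3 → ℝ => y 0)
      (ContinuousLinearMap.proj (R := ℝ) (φ := fun _ : Fin 3 => ℝ) 0) y :=
    (ContinuousLinearMap.proj (R := ℝ) (φ := fun _ : Fin 3 => ℝ) 0).hasFDerivAt
  have h2 := h0.smul h1
  have h3 := ((PiLp.continuousLinearEquiv 2 ℝ (fun _ : Fin 3 => ℝ)).toContinuousLinearMap.hasFDerivAt
    (x := (y 0 • nor r f (P y)))).comp y h2
  have h4 := h3.const_smul ε
  exact h4

omit H in
theorem det_Phi' (ε : ℝ) (y : Fin 3 → ℝ) :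
    (Phi' r f ε y).det = ε ^ 3 * ((y 0) ^ 2 * det3 (nor r f (y 1, y 2)) (D e1 (nor r f) (y 1, y 2))
      (D e2 (nor r f) (y 1, y 2))) := by
  rw [ContinuousLinearMap.det, ← LinearMap.det_toMatrix', Matrix.det_fin_three]
  simp only [LinearMap.toMatrix'_apply]
  have hz : fderiv ℝ (nor r f) (y 1, y 2) ((0 : ℝ), (0 : ℝ)) = 0 := map_zero _
  simp [Phi', det3, D, e1, e2, hz]
  ring


/-- The box `(0,1] × [0,2π) × [0,2π)`. -/
def Box : Set (Fin 3 → ℝ) :=
  {y | y 0 ∈ Ioc (0 : ℝ) 1 ∧ y 1 ∈ Ico 0 (2 * Real.pi) ∧ y 2 ∈ Ico 0 (2 * Real.pi)}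

/-- Points where the height function in the direction of the normal is maximal. -/
def Ep (r : ℝ → ℝ) (f : ℝ × ℝ → E3) : Set (ℝ × ℝ) :=
  {p | ∀ q, ⟪f q, nor r f p⟫ ≤ ⟪f p, nor r f p⟫}

/-- Points where the height function in the direction of the normal is minimal. -/
def Em (r : ℝ → ℝ) (f : ℝ × ℝ → E3) : Set (ℝ × ℝ) :=
  {p | ∀ q, ⟪f p, nor r f p⟫ ≤ ⟪f q, nor r f p⟫}

/-- Points of the box lying over a set. -/
def Ov (S : Set (ℝ × ℝ)) : Set (Fin 3 → ℝ) := {y | y ∈ Box ∧ (y 1, y 2) ∈ S}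

theorem isClosed_Ep : IsClosed (Ep r f) := by
  have hN := H.c_nor.continuous
  have hf := H.smooth.continuous
  simp only [Ep, ofPred_forall]
  exact isClosed_iInter fun q => isClosed_le (by fun_prop) (by fun_prop)

theorem isClosed_Em : IsClosed (Em r f) := by
  have hN := H.c_nor.continuous
  have hf := H.smooth.continuous
  simp only [Em, ofPred_forall]
  exact isClosed_iInter fun q => isClosed_le (by fun_prop) (by fun_prop)

omit H in
theorem measurableSet_Box : MeasurableSet Box := by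
  have h0 : MeasurableSet {y : Fin 3 → ℝ | y 0 ∈ Ioc (0 : ℝ) 1} :=
    measurableSet_Ioc.preimage (measurable_pi_apply 0)
  have h1 : MeasurableSet {y : Fin 3 → ℝ | y 1 ∈ Ico 0 (2 * Real.pi)} :=
    measurableSet_Ico.preimage (measurable_pi_apply 1)
  have h2 : MeasurableSet {y : Fin 3 → ℝ | y 2 ∈ Ico 0 (2 * Real.pi)} :=
    measurableSet_Ico.preimage (measurable_pi_apply 2)
  exact h0.inter (h1.inter h2)

omit H in
theorem measurableSet_Ov {S : Set (ℝ × ℝ)} (hS : MeasurableSet S) :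
    MeasurableSet (Ov S) := by
  have h : Measurable (fun y : Fin 3 → ℝ => ((y 1, y 2) : ℝ × ℝ)) := by fun_prop
  exact measurableSet_Box.inter (hS.preimage h)

omit H in
theorem volume_ball3 :
    volume ({x : Fin 3 → ℝ | WithLp.toLp 2 x ∈ Metric.ball (0 : E3) 1} \ {0}) =
      ENNReal.ofReal (Real.pi * 4 / 3) := by
  rw [measure_sdiff_null (by simp)]
  have := (PiLp.volume_preserving_toLp (Fin 3)).measure_preimage
    (s := Metric.ball (0 : E3) 1) measurableSet_ball.nullMeasurableSet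
  rw [EuclideanSpace.volume_ball_fin_three] at this
  have h2 : {x : Fin 3 → ℝ | WithLp.toLp 2 x ∈ Metric.ball (0 : E3) 1} =
    WithLp.toLp 2 ⁻¹' Metric.ball (0 : E3) 1 := rfl
  rw [h2, this]
  simp

theorem ball_subset (hper : Per f) :
    ({x : Fin 3 → ℝ | WithLp.toLp 2 x ∈ Metric.ball (0 : E3) 1} \ {0}) ⊆
      Phi r f 1 '' Ov (Ep r f) ∪ Phi r f (-1) '' Ov (Em r f) := by
  rintro x ⟨hx, hx0⟩
  set X : E3 := WithLp.toLp 2 x with hX
  have hXn : ‖X‖ < 1 := by simpa using hx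
  have hX0 : X ≠ 0 := by
    intro h
    apply hx0
    have : X.ofLp = 0 := by rw [h]; rfl
    simpa [hX] using this
  have hpos : 0 < ‖X‖ := norm_pos_iff.2 hX0
  set ν : E3 := ‖X‖⁻¹ • X with hνd
  have hν : ⟪ν, ν⟫ = 1 := by
    rw [hνd, real_inner_smul_left, real_inner_smul_right, real_inner_self_eq_norm_sq]
    field_simp
  have hXν : X = ‖X‖ • ν := by
    rw [hνd, smul_smul, mul_inv_cancel₀ hpos.ne', one_smul]
  obtain ⟨p, hpQ, hmax, hor⟩ := H.exists_support hper hν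
  rcases hor with h | h
  · left
    refine ⟨![‖X‖, p.1, p.2], ⟨⟨⟨hpos, hXn.le⟩, hpQ.1, hpQ.2⟩, ?_⟩, ?_⟩
    · change p ∈ Ep r f
      intro q
      rw [← h]
      exact hmax q
    · funext i
      change 1 * (‖X‖ * (nor r f p) i) = x i
      rw [← h, one_mul]
      have := congrArg (fun z : E3 => z i) hXν
      simp only [PiLp.smul_apply, smul_eq_mul] at this
      rw [← this, hX]
  · right
    refine ⟨![‖X‖, p.1, p.2], ⟨⟨⟨hpos, hXn.le⟩, hpQ.1, hpQ.2⟩, ?_⟩, ?_⟩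
    · change p ∈ Em r f
      intro q
      have hN : nor r f p = - ν := by rw [h, neg_neg]
      rw [hN, inner_neg_right, inner_neg_right]
      have := hmax q
      linarith
    · funext i
      change -1 * (‖X‖ * (nor r f p) i) = x i
      have hN : nor r f p = - ν := by rw [h, neg_neg]
      rw [hN]
      have := congrArg (fun z : E3 => z i) hXν
      simp only [PiLp.smul_apply, smul_eq_mul] at this
      simp only [PiLp.neg_apply]
      have h2 : X i = x i := rfl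
      rw [← h2]
      linarith

theorem Ep_sub : Ep r f ⊆ {p | r'' p.1 ≤ 0} := by
  intro p hp
  exact (H.curv_of_max (H.nor_nor p) hp).2

theorem Em_sub : Em r f ⊆ {p | r'' p.1 ≤ 0} := by
  intro p hp
  have h : ∀ q, ⟪f q, - nor r f p⟫ ≤ ⟪f p, - nor r f p⟫ := by
    intro q
    rw [inner_neg_right, inner_neg_right]
    have := hp q
    linarith
  exact (H.curv_of_max (by rw [inner_neg_neg]; exact H.nor_nor p) h).2

theorem disj (hex : ∃ s, r'' s ≠ 0) : Disjoint (Ep r f) (Em r f) := by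
  rw [Set.disjoint_left]
  intro p h1 h2
  obtain ⟨s, hs⟩ := hex
  exact hs (H.rr_zero_of_const (H.nor_nor p) (fun q => le_antisymm (h1 q) (h2 q)) s)

theorem image_le (ε : ℝ) (hε : |ε| = 1) {S : Set (ℝ × ℝ)} (hS : MeasurableSet S) :
    volume (Phi r f ε '' Ov S) ≤
      ∫⁻ y in Ov S, ENNReal.ofReal |(y 0) ^ 2 * r'' (y 1)| := by
  refine (addHaar_image_le_lintegral_abs_det_fderiv volume (measurableSet_Ov hS)
    (fun y _ => (H.hasFDerivAt_Phi ε y).hasFDerivWithinAt)).trans (le_of_eq ?_)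
  congr 1
  funext y
  rw [det_Phi', H.det_normal, abs_mul, abs_pow, hε]
  simp

/-- The area inequality for the Gauss map. -/
theorem area_ineq (hper : Per f) (hex : ∃ s, r'' s ≠ 0) :
    ENNReal.ofReal (Real.pi * 4 / 3) ≤
      ∫⁻ y in Ov {p | r'' p.1 ≤ 0}, ENNReal.ofReal |(y 0) ^ 2 * r'' (y 1)| := by
  have hEp := H.isClosed_Ep.measurableSet
  have hEm := H.isClosed_Em.measurableSet
  calc ENNReal.ofReal (Real.pi * 4 / 3)
      = volume ({x : Fin 3 → ℝ | WithLp.toLp 2 x ∈ Metric.ball (0 : E3) 1} \ {0}) :=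
        volume_ball3.symm
    _ ≤ volume (Phi r f 1 '' Ov (Ep r f) ∪ Phi r f (-1) '' Ov (Em r f)) :=
        measure_mono (H.ball_subset hper)
    _ ≤ volume (Phi r f 1 '' Ov (Ep r f)) + volume (Phi r f (-1) '' Ov (Em r f)) :=
        measure_union_le _ _
    _ ≤ (∫⁻ y in Ov (Ep r f), ENNReal.ofReal |(y 0) ^ 2 * r'' (y 1)|) +
          ∫⁻ y in Ov (Em r f), ENNReal.ofReal |(y 0) ^ 2 * r'' (y 1)| :=
        add_le_add (H.image_le 1 (by simp) hEp) (H.image_le (-1) (by simp) hEm)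
    _ = ∫⁻ y in Ov (Ep r f) ∪ Ov (Em r f), ENNReal.ofReal |(y 0) ^ 2 * r'' (y 1)| := by
        rw [lintegral_union (measurableSet_Ov hEm)]
        rw [Set.disjoint_left]
        intro y h1 h2
        exact (Set.disjoint_left.1 (H.disj hex)) h1.2 h2.2
    _ ≤ ∫⁻ y in Ov {p | r'' p.1 ≤ 0}, ENNReal.ofReal |(y 0) ^ 2 * r'' (y 1)| := by
        apply lintegral_mono_set
        rintro y (h | h)
        · exact ⟨h.1, H.Ep_sub h.2⟩
        · exact ⟨h.1, H.Em_sub h.2⟩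

end Iso

end Pool.Agent.Q140.Tor
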