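import Pool.Agent.Q140.Tor.Cover

/-!
# No isometric immersion for flattened tori of revolution
-/

open scoped RealInnerProductSpace
open MeasureTheory Set

namespace Pool.Agent.Q140.Tor

/-- The positive part of the cosine. -/
noncomputable def cosp (x : ℝ) : ℝ := max (Real.cos x) 0

theorem continuous_cosp : Continuous cosp := Real.continuous_cos.max continuous_const

theorem integral_cosp : ∫ x in (0 : ℝ)..(2 * Real.pi), cosp x = 2 := by
  have hpi := Real.pi_pos
  have hint : ∀ a b, IntervalIntegrable cosp volume a b :=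
    fun a b => continuous_cosp.intervalIntegrable a b
  rw [← intervalIntegral.integral_add_adjacent_intervals (hint 0 (Real.pi / 2))
    (hint (Real.pi / 2) (2 * Real.pi)),
    ← intervalIntegral.integral_add_adjacent_intervals (hint (Real.pi / 2) (3 * Real.pi / 2))
    (hint (3 * Real.pi / 2) (2 * Real.pi))]
  have h1 : ∫ x in (0 : ℝ)..(Real.pi / 2), cosp x = 1 := by
    rw [intervalIntegral.integral_congr (g := Real.cos)]
    · simp
    · intro x hx
      rw [uIcc_of_le (by positivity)] at hx
      exact max_eq_left (Real.cos_nonneg_of_mem_Icc ⟨by linarith [hx.1], hx.2⟩)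
  have h2 : ∫ x in (Real.pi / 2)..(3 * Real.pi / 2), cosp x = 0 := by
    rw [intervalIntegral.integral_congr (g := fun _ => (0 : ℝ))]
    · simp
    · intro x hx
      rw [uIcc_of_le (by linarith)] at hx
      apply max_eq_right
      apply Real.cos_nonpos_of_pi_div_two_le_of_le hx.1
      linarith [hx.2]
  have h3 : ∫ x in (3 * Real.pi / 2)..(2 * Real.pi), cosp x = 1 := by
    rw [intervalIntegral.integral_congr (g := Real.cos)]
    · rw [integral_cos, Real.sin_two_pi]
      have : Real.sin (3 * Real.pi / 2) = -1 := by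
        have : 3 * Real.pi / 2 = Real.pi / 2 + Real.pi := by ring
        rw [this, Real.sin_add_pi, Real.sin_pi_div_two]
      rw [this]; norm_num
    · intro x hx
      rw [uIcc_of_le (by linarith)] at hx
      apply max_eq_left
      have : Real.cos x = Real.cos (2 * Real.pi - x) := by rw [Real.cos_two_pi_sub]
      rw [this]
      exact Real.cos_nonneg_of_mem_Icc ⟨by linarith [hx.2], by linarith [hx.1]⟩
  rw [h1, h2, h3]
  norm_num

/-- The three factors. -/
noncomputable def fac (c : ℝ) : Fin 3 → ℝ → ℝ :=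
  ![(Ioc (0 : ℝ) 1).indicator (fun x => x ^ 2),
    (Icc 0 (2 * Real.pi)).indicator (fun x => c * cosp x),
    (Icc 0 (2 * Real.pi)).indicator (fun _ => 1)]

theorem fac_int (c : ℝ) : ∀ i, Integrable (fac c i) := by
  have key : ∀ (a b : ℝ) (g : ℝ → ℝ), Continuous g → Integrable ((Ioc a b).indicator g) := by
    intro a b g hg
    rw [integrable_indicator_iff measurableSet_Ioc]
    exact hg.integrableOn_Ioc
  have key' : ∀ (a b : ℝ) (g : ℝ → ℝ), Continuous g → Integrable ((Icc a b).indicator g) := by
    intro a b g hg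
    rw [integrable_indicator_iff measurableSet_Icc]
    exact hg.integrableOn_Icc
  intro i
  fin_cases i
  · exact key _ _ _ (by fun_prop)
  · exact key' _ _ _ (continuous_const.mul continuous_cosp)
  · exact key' _ _ _ (by fun_prop)

theorem fac_val (c : ℝ) : ∏ i, ∫ x, fac c i x = c * (Real.pi * 4 / 3) := by
  have h0 : ∫ x, fac c 0 x = 1 / 3 := by
    change ∫ x, (Ioc (0 : ℝ) 1).indicator (fun x => x ^ 2) x = _
    rw [integral_indicator measurableSet_Ioc, ← intervalIntegral.integral_of_le (by norm_num)]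
    simp
    norm_num
  have h1 : ∫ x, fac c 1 x = c * 2 := by
    change ∫ x, (Icc 0 (2 * Real.pi)).indicator (fun x => c * cosp x) x = _
    rw [integral_indicator measurableSet_Icc, integral_Icc_eq_integral_Ioc,
      ← intervalIntegral.integral_of_le Real.two_pi_pos.le, intervalIntegral.integral_const_mul,
      integral_cosp]
  have h2 : ∫ x, fac c 2 x = 2 * Real.pi := by
    change ∫ x, (Icc 0 (2 * Real.pi)).indicator (fun _ => (1 : ℝ)) x = _
    rw [integral_indicator measurableSet_Icc, integral_Icc_eq_integral_Ioc,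
      ← intervalIntegral.integral_of_le Real.two_pi_pos.le]
    simp
  rw [Fin.prod_univ_three, h0, h1, h2]
  ring

/-- The integral on the right-hand side of the area inequality. -/
theorem lint_le {c : ℝ} (hc : 0 ≤ c) :
    ∫⁻ y in Iso.Ov {p | -(c * Real.cos p.1) ≤ 0},
      ENNReal.ofReal |(y 0) ^ 2 * (-(c * Real.cos (y 1)))| ≤
        ENNReal.ofReal (c * (Real.pi * 4 / 3)) := by
  have hprod : Integrable (fun y : Fin 3 → ℝ => ∏ i, fac c i (y i)) :=
    Integrable.fintype_prod (fac_int c)
  have hnn : ∀ i x, 0 ≤ fac c i x := by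
    intro i x
    fin_cases i
    · exact indicator_nonneg (fun x _ => sq_nonneg x) x
    · exact indicator_nonneg (fun x _ => mul_nonneg hc (le_max_right _ _)) x
    · exact indicator_nonneg (fun x _ => zero_le_one) x
  have hval : ∫ y : Fin 3 → ℝ, ∏ i, fac c i (y i) = c * (Real.pi * 4 / 3) := by
    rw [← fac_val c]
    exact integral_fin_nat_prod_eq_prod (fac c)
  rw [← hval, ofReal_integral_eq_lintegral_ofReal hprod
    (Filter.Eventually.of_forall fun y => Finset.prod_nonneg fun i _ => hnn i _)]
  have hm : MeasurableSet (Iso.Ov {p : ℝ × ℝ | -(c * Real.cos p.1) ≤ 0}) := by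
    apply Iso.measurableSet_Ov
    apply IsClosed.measurableSet
    exact isClosed_le (by fun_prop) (by fun_prop)
  refine (setLIntegral_mono' hm ?_).trans (setLIntegral_le_lintegral _ _)
  rintro y ⟨⟨hy0, hy1, hy2⟩, hy⟩
  apply ENNReal.ofReal_le_ofReal
  have hc2 : 0 ≤ c * Real.cos (y 1) := by
    have : -(c * Real.cos (y 1)) ≤ 0 := hy
    linarith
  rw [Fin.prod_univ_three]
  have k0 : fac c 0 (y 0) = y 0 ^ 2 := indicator_of_mem hy0 (fun x : ℝ => x ^ 2)
  have k1 : fac c 1 (y 1) = c * cosp (y 1) :=
    indicator_of_mem (Ico_subset_Icc_self hy1) (fun x : ℝ => c * cosp x)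
  have k2 : fac c 2 (y 2) = 1 := indicator_of_mem (Ico_subset_Icc_self hy2) (fun _ : ℝ => (1 : ℝ))
  rw [k0, k1, k2, mul_one, mul_neg, abs_neg, abs_of_nonneg (mul_nonneg (sq_nonneg _) hc2)]
  apply mul_le_mul_of_nonneg_left _ (sq_nonneg _)
  exact mul_le_mul_of_nonneg_left (le_max_left _ _) hc

/-- There is no closed `C^3` immersed torus in `ℝ³` with the metric
`ds² + (a + c cos s)² dθ²` when `0 < c < 1` and `c < a`. -/
theorem no_immersion {a c : ℝ} (hc0 : 0 < c) (hc1 : c < 1) (hac : c < a) (f : ℝ × ℝ → E3)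
    (hf : ContDiff ℝ 3 f) (hper : Per f)
    (h11 : ∀ p, ⟪D e1 f p, D e1 f p⟫ = 1) (h12 : ∀ p, ⟪D e1 f p, D e2 f p⟫ = 0)
    (h22 : ∀ p, ⟪D e2 f p, D e2 f p⟫ = (a + c * Real.cos p.1) ^ 2) : False := by
  have H : Iso (fun s => a + c * Real.cos s) (fun s => -(c * Real.sin s))
      (fun s => -(c * Real.cos s)) f := by
    refine ⟨?_, ?_, ?_, ?_, hf, h11, h12, h22⟩
    · intro s
      have := Real.neg_one_le_cos s
      nlinarith
    · intro s
      have := ((Real.hasDerivAt_cos s).const_mul c).const_add a
      simpa using this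
    · intro s
      exact ((Real.hasDerivAt_sin s).const_mul c).neg
    · exact contDiff_const.add (contDiff_const.mul Real.contDiff_cos)
  have h1 := H.area_ineq hper ⟨0, by simpa using hc0.ne'⟩
  have h2 := h1.trans (lint_le hc0.le)
  rw [ENNReal.ofReal_le_ofReal_iff (by positivity)] at h2
  have : 0 < Real.pi * 4 / 3 := by positivity
  nlinarith

end Pool.Agent.Q140.Tor
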