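import Pool.Agent.Q140.Tor.Basic

/-!
# The Gauss equation for `ds² + r(s)² dθ²`
-/

open scoped RealInnerProductSpace

namespace Pool.Agent.Q140.Tor

/-- First coordinate direction. -/
def e1 : ℝ × ℝ := (1, 0)

/-- Second coordinate direction. -/
def e2 : ℝ × ℝ := (0, 1)

/-- `f` is a `C^3` isometric immersion of `ds² + r(s)² dθ²`, where `r > 0` has first derivative
`r'` and second derivative `r''`. -/
structure Iso (r r' r'' : ℝ → ℝ) (f : ℝ × ℝ → E3) : Prop where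
  pos : ∀ s, 0 < r s
  hr : ∀ s, HasDerivAt r (r' s) s
  hr' : ∀ s, HasDerivAt r' (r'' s) s
  smooth_r : ContDiff ℝ 2 r
  smooth : ContDiff ℝ 3 f
  h11 : ∀ p, ⟪D e1 f p, D e1 f p⟫ = 1
  h12 : ∀ p, ⟪D e1 f p, D e2 f p⟫ = 0
  h22 : ∀ p, ⟪D e2 f p, D e2 f p⟫ = r p.1 ^ 2

/-- The unit normal. -/
noncomputable def nor (r : ℝ → ℝ) (f : ℝ × ℝ → E3) (p : ℝ × ℝ) : E3 :=
  (r p.1)⁻¹ • cr (D e1 f p) (D e2 f p)

theorem D_const {V : Type*} [NormedAddCommGroup V] [NormedSpace ℝ V] (c : V) (v p : ℝ × ℝ) :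
    D v (fun _ => c) p = 0 := by
  simp [D]

theorem D_fst {g : ℝ → ℝ} {g' : ℝ} {p : ℝ × ℝ} (h : HasDerivAt g g' p.1) (v : ℝ × ℝ) :
    D v (fun q => g q.1) p = v.1 * g' := by
  have h1 : HasFDerivAt (fun q : ℝ × ℝ => g q.1)
      (((ContinuousLinearMap.toSpanSingleton ℝ g').comp (ContinuousLinearMap.fst ℝ ℝ ℝ))) p :=
    h.hasFDerivAt.comp p hasFDerivAt_fst
  simp [D, h1.fderiv]

variable {r r' r'' : ℝ → ℝ} {f : ℝ × ℝ → E3}

namespace Iso

variable (H : Iso r r' r'' f)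

include H

theorem ne (s : ℝ) : r s ≠ 0 := (H.pos s).ne'

theorem c1 (v : ℝ × ℝ) : ContDiff ℝ 2 (D v f) := by
  simpa using contDiff_D (m := 2) (n := 3) (by simpa using H.smooth) (by norm_num) v

theorem c2 (v w : ℝ × ℝ) : ContDiff ℝ 1 (D v (D w f)) := by
  simpa using contDiff_D (m := 1) (n := 2) (by simpa using H.c1 w) (by norm_num) v

theorem d1 (v : ℝ × ℝ) (p : ℝ × ℝ) : DifferentiableAt ℝ (D v f) p :=
  (H.c1 v).differentiable (by norm_num) p

theorem d2 (v w : ℝ × ℝ) (p : ℝ × ℝ) : DifferentiableAt ℝ (D v (D w f)) p :=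
  (H.c2 v w).differentiable (by norm_num) p

theorem comm (v w : ℝ × ℝ) : D v (D w f) = D w (D v f) := by
  funext p
  exact D_comm (H.smooth.of_le (by norm_num)) v w p

theorem ss_s (p : ℝ × ℝ) : ⟪D e1 (D e1 f) p, D e1 f p⟫ = 0 := by
  have h := D_inner (H.d1 e1 p) (H.d1 e1 p) e1
  rw [show (fun q => ⟪D e1 f q, D e1 f q⟫) = fun _ => (1 : ℝ) from funext H.h11, D_const] at h
  rw [real_inner_comm (D e1 (D e1 f) p) (D e1 f p)] at h
  linarith

theorem st_s (p : ℝ × ℝ) : ⟪D e1 (D e2 f) p, D e1 f p⟫ = 0 := by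
  have h := D_inner (H.d1 e1 p) (H.d1 e1 p) e2
  rw [show (fun q => ⟪D e1 f q, D e1 f q⟫) = fun _ => (1 : ℝ) from funext H.h11, D_const] at h
  rw [real_inner_comm (D e2 (D e1 f) p) (D e1 f p)] at h
  rw [H.comm e1 e2]
  linarith

theorem ss_t (p : ℝ × ℝ) : ⟪D e1 (D e1 f) p, D e2 f p⟫ = 0 := by
  have h := D_inner (H.d1 e1 p) (H.d1 e2 p) e1
  rw [show (fun q => ⟪D e1 f q, D e2 f q⟫) = fun _ => (0 : ℝ) from funext H.h12, D_const] at h
  rw [real_inner_comm (D e1 (D e2 f) p) (D e1 f p), H.st_s p] at h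
  linarith

theorem D_r2 (v p : ℝ × ℝ) : D v (fun q : ℝ × ℝ => r q.1 ^ 2) p = v.1 * (2 * r p.1 * r' p.1) := by
  have h := (H.hr p.1).pow 2
  have := D_fst (g := fun s => r s ^ 2) h v
  rw [this]; simp

theorem st_t (p : ℝ × ℝ) : ⟪D e1 (D e2 f) p, D e2 f p⟫ = r p.1 * r' p.1 := by
  have h := D_inner (H.d1 e2 p) (H.d1 e2 p) e1
  rw [show (fun q => ⟪D e2 f q, D e2 f q⟫) = fun q => r q.1 ^ 2 from funext H.h22, H.D_r2] at h
  rw [real_inner_comm (D e1 (D e2 f) p) (D e2 f p)] at h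
  simp [e1] at h ⊢
  linarith

theorem tt_t (p : ℝ × ℝ) : ⟪D e2 (D e2 f) p, D e2 f p⟫ = 0 := by
  have h := D_inner (H.d1 e2 p) (H.d1 e2 p) e2
  rw [show (fun q => ⟪D e2 f q, D e2 f q⟫) = fun q => r q.1 ^ 2 from funext H.h22, H.D_r2] at h
  rw [real_inner_comm (D e2 (D e2 f) p) (D e2 f p)] at h
  simp [e2] at h ⊢
  linarith

theorem tt_s (p : ℝ × ℝ) : ⟪D e1 f p, D e2 (D e2 f) p⟫ = - (r p.1 * r' p.1) := by
  have h := D_inner (H.d1 e1 p) (H.d1 e2 p) e2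
  rw [show (fun q => ⟪D e1 f q, D e2 f q⟫) = fun _ => (0 : ℝ) from funext H.h12, D_const] at h
  rw [← H.comm e1 e2, H.st_t p] at h
  linarith

/-- First form of the Gauss equation. -/
theorem gauss1 (p : ℝ × ℝ) :
    ⟪D e1 (D e1 f) p, D e2 (D e2 f) p⟫ - ⟪D e1 (D e2 f) p, D e1 (D e2 f) p⟫ =
      - (r' p.1 * r' p.1 + r p.1 * r'' p.1) := by
  have h := D_inner (H.d1 e1 p) (H.d2 e2 e2 p) e1
  rw [show (fun q => ⟪D e1 f q, D e2 (D e2 f) q⟫) = fun q => - (r q.1 * r' q.1) from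
    funext H.tt_s] at h
  have h0 : D e1 (fun q : ℝ × ℝ => - (r q.1 * r' q.1)) p =
      - (r' p.1 * r' p.1 + r p.1 * r'' p.1) := by
    have := D_fst (g := fun s => - (r s * r' s)) ((H.hr p.1).mul (H.hr' p.1)).neg e1
    rw [this]; simp [e1]
  rw [h0] at h
  have k := D_inner (H.d2 e1 e2 p) (H.d1 e1 p) e2
  rw [show (fun q => ⟪D e1 (D e2 f) q, D e1 f q⟫) = fun _ => (0 : ℝ) from funext H.st_s,
    D_const] at k
  have e : D e1 (D e2 (D e2 f)) p = D e2 (D e1 (D e2 f)) p :=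
    D_comm (H.c1 e2) e1 e2 p
  rw [e, real_inner_comm (D e2 (D e1 (D e2 f)) p) (D e1 f p)] at h
  rw [← H.comm e1 e2] at k
  linarith

theorem c_nor : ContDiff ℝ 2 (nor r f) := by
  have h1 : ContDiff ℝ 2 (fun p : ℝ × ℝ => (r p.1)⁻¹) :=
    (H.smooth_r.comp contDiff_fst).inv (fun p => H.ne p.1)
  have h2 : ContDiff ℝ 2 (fun p => cr (D e1 f p) (D e2 f p)) := by
    have := contDiff_cr (n := 2) (g := D e1 f) (h := D e2 f)
      (by simpa using H.c1 e1) (by simpa using H.c1 e2)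
    simpa using this
  exact h1.smul h2

theorem d_nor (p : ℝ × ℝ) : DifferentiableAt ℝ (nor r f) p :=
  H.c_nor.differentiable (by norm_num) p

omit H in
theorem nor_s (p : ℝ × ℝ) : ⟪nor r f p, D e1 f p⟫ = 0 := by
  simp [nor, inner_smul_left, inner_cr_left]

omit H in
theorem nor_t (p : ℝ × ℝ) : ⟪nor r f p, D e2 f p⟫ = 0 := by
  simp [nor, inner_smul_left, inner_cr_right]

theorem nor_nor (p : ℝ × ℝ) : ⟪nor r f p, nor r f p⟫ = 1 := by
  have := H.ne p.1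
  rw [nor, real_inner_smul_left, real_inner_smul_right, inner_cr_cr, H.h11, H.h12, H.h22]
  field_simp
  ring

theorem det_nor (p : ℝ × ℝ) : det3 (D e1 f p) (D e2 f p) (nor r f p) = r p.1 := by
  have := H.ne p.1
  rw [nor, det3_smul_right, det3_cr, H.h11, H.h12, H.h22]
  field_simp
  ring

/-- Parseval identity in the frame `f_s, f_θ / r, N`. -/
theorem parseval (u v : E3) (p : ℝ × ℝ) :
    ⟪u, v⟫ = ⟪u, D e1 f p⟫ * ⟪v, D e1 f p⟫ + ⟪u, D e2 f p⟫ * ⟪v, D e2 f p⟫ / r p.1 ^ 2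
      + ⟪u, nor r f p⟫ * ⟪v, nor r f p⟫ := by
  have hne := H.ne p.1
  have h := inner_expand u v (D e1 f p) (D e2 f p)
  rw [H.h11, H.h12, H.h22, real_inner_comm v (D e1 f p), real_inner_comm v (D e2 f p)] at h
  rw [nor, real_inner_smul_right, real_inner_smul_right]
  field_simp
  linarith

/-- Coefficients of the second fundamental form. -/
noncomputable def sff (r : ℝ → ℝ) (f : ℝ × ℝ → E3) (v w p : ℝ × ℝ) : ℝ :=
  ⟪nor r f p, D v (D w f) p⟫

/-- The Gauss equation. -/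
theorem gauss (p : ℝ × ℝ) :
    sff r f e1 e1 p * sff r f e2 e2 p - sff r f e1 e2 p ^ 2 = - (r p.1 * r'' p.1) := by
  have hne := H.ne p.1
  have g := H.gauss1 p
  rw [H.parseval (D e1 (D e1 f) p) (D e2 (D e2 f) p) p,
    H.parseval (D e1 (D e2 f) p) (D e1 (D e2 f) p) p] at g
  rw [H.ss_s, H.ss_t, H.st_s, H.st_t] at g
  unfold sff
  rw [real_inner_comm (D e1 (D e1 f) p) (nor r f p), real_inner_comm (D e2 (D e2 f) p) (nor r f p),
    real_inner_comm (D e1 (D e2 f) p) (nor r f p)]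
  field_simp at g
  apply mul_left_cancel₀ (pow_ne_zero 2 hne)
  linarith

/-- `det (N, N_s, N_θ) = - r''`. -/
theorem det_normal (p : ℝ × ℝ) :
    det3 (nor r f p) (D e1 (nor r f) p) (D e2 (nor r f) p) = - r'' p.1 := by
  have hne := H.ne p.1
  have w1 : ∀ v w : ℝ × ℝ, ⟪D v (nor r f) p, D w f p⟫ + ⟪nor r f p, D v (D w f) p⟫ =
      D v (fun q => ⟪nor r f q, D w f q⟫) p := by
    intro v w
    rw [D_inner (H.d_nor p) (H.d1 w p) v]
    ring
  have z1 : ∀ v, D v (fun q => ⟪nor r f q, D e1 f q⟫) p = 0 := by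
    intro v
    rw [show (fun q => ⟪nor r f q, D e1 f q⟫) = fun _ => (0 : ℝ) from funext (nor_s (r := r)),
      D_const]
  have z2 : ∀ v, D v (fun q => ⟪nor r f q, D e2 f q⟫) p = 0 := by
    intro v
    rw [show (fun q => ⟪nor r f q, D e2 f q⟫) = fun _ => (0 : ℝ) from funext (nor_t (r := r)),
      D_const]
  have z3 : ∀ v, ⟪D v (nor r f) p, nor r f p⟫ = 0 := by
    intro v
    have h := D_inner (H.d_nor p) (H.d_nor p) v
    rw [show (fun q => ⟪nor r f q, nor r f q⟫) = fun _ => (1 : ℝ) from funext H.nor_nor,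
      D_const, real_inner_comm (D v (nor r f) p) (nor r f p)] at h
    linarith
  have a11 : ⟪D e1 (nor r f) p, D e1 f p⟫ = - sff r f e1 e1 p := by
    have := w1 e1 e1; rw [z1] at this; unfold sff; linarith
  have a12 : ⟪D e1 (nor r f) p, D e2 f p⟫ = - sff r f e1 e2 p := by
    have := w1 e1 e2; rw [z2] at this; unfold sff; linarith
  have a21 : ⟪D e2 (nor r f) p, D e1 f p⟫ = - sff r f e1 e2 p := by
    have := w1 e2 e1; rw [z1, ← H.comm e1 e2] at this; unfold sff; linarith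
  have a22 : ⟪D e2 (nor r f) p, D e2 f p⟫ = - sff r f e2 e2 p := by
    have := w1 e2 e2; rw [z2] at this; unfold sff; linarith
  have k := det3_mul_det3 (nor r f p) (D e1 (nor r f) p) (D e2 (nor r f) p)
    (D e1 f p) (D e2 f p) (nor r f p)
  rw [H.det_nor, nor_s, nor_t, H.nor_nor, a11, a12, a21, a22, z3, z3] at k
  have g := H.gauss p
  have : det3 (nor r f p) (D e1 (nor r f) p) (D e2 (nor r f) p) * r p.1 = - r'' p.1 * r p.1 := by
    rw [k]; linarith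
  exact mul_right_cancel₀ hne this

end Iso

end Pool.Agent.Q140.Tor
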